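import Pool.Agent.MP_ea150c_mp.H16.FSpec

/-! Row Loc1: local approximations exist. -/

namespace Pool.Agent.MP_ea150c_mp.H78

open Pool.Agent.MP_ea150c_mp.H49 Pool.Agent.MP_ea150c_mp.H16

noncomputable section

section Gen
variable {O P E : Type} [CommRing O] [AddCommGroup P] [Module O P] [AddCommGroup E] [Module O E]

theorem sm_iff (c : O) (M : Submodule O E) (x : E) : x ∈ sm c M ↔ ∃ y ∈ M, c • y = x := by
  simp [sm, Submodule.mem_map]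

theorem lift_sup [Module.Projective O P] (f : P →ₗ[O] E) (V N : Submodule O E)
    (h : ∀ x, f x ∈ V ⊔ N) : ∃ g : P →ₗ[O] E, (∀ x, g x ∈ V) ∧ ∀ x, g x - f x ∈ N := by
  let q : (V × N) →ₗ[O] (V ⊔ N : Submodule O E) :=
    (V.subtype.coprod N.subtype).codRestrict (V ⊔ N) fun y =>
      Submodule.add_mem_sup y.1.2 y.2.2
  have hq : Function.Surjective q := by
    rintro ⟨x, hx⟩
    obtain ⟨a, ha, b, hb, rfl⟩ := Submodule.mem_sup.1 hx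
    exact ⟨(⟨a, ha⟩, ⟨b, hb⟩), rfl⟩
  obtain ⟨g, hg⟩ := Module.projective_lifting_property q (f.codRestrict (V ⊔ N) h) hq
  refine ⟨V.subtype ∘ₗ LinearMap.fst O V N ∘ₗ g, fun x => (g x).1.2, fun x => ?_⟩
  have e : ((g x).1 : E) + ((g x).2 : E) = f x :=
    congrArg Subtype.val (LinearMap.congr_fun hg x)
  have e2 : ((g x).1 : E) - f x = -((g x).2 : E) := by rw [← e]; abel
  show ((g x).1 : E) - f x ∈ N
  rw [e2]
  exact N.neg_mem (g x).2.2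

theorem sm_le (c : O) (M : Submodule O E) : sm c M ≤ M := by
  intro x hx
  obtain ⟨y, hy, rfl⟩ := (sm_iff c M x).1 hx
  exact M.smul_mem c hy

theorem sm_pow_le (c : O) {a b : ℕ} (hab : a ≤ b) {M M' : Submodule O E} (h : M ≤ M') :
    sm (c ^ b) M ≤ sm (c ^ a) M' := by
  intro x hx
  obtain ⟨y, hy, rfl⟩ := (sm_iff _ M x).1 hx
  refine (sm_iff _ _ _).2 ⟨c ^ (b - a) • y, M'.smul_mem _ (h hy), ?_⟩
  rw [smul_smul, ← pow_add, Nat.add_sub_cancel' hab]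

theorem level (c : O) (V : ℕ → Submodule O E) (hV : ∀ l l', l ≤ l' → V l ≤ V l')
    (N : Submodule O E) (S M : ℕ) (hN : ∀ l, sm (c ^ S) (V l) ≤ N) (hS : S ≤ nu (M + 1)) :
    (⨆ l, sm (c ^ nu l) (V l)) ≤ (V 0 ⊔ sm c (V 1) ⊔ sm (c ^ 2) (V M)) ⊔ N := by
  refine iSup_le fun l => ?_
  by_cases h0 : l = 0
  · subst h0
    exact (sm_le _ _).trans (le_sup_of_le_left (le_sup_of_le_left le_sup_left))
  by_cases h1 : l = 1
  · subst h1
    have : nu 1 = 1 := rfl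
    rw [this, pow_one]
    exact le_sup_of_le_left (le_sup_of_le_left le_sup_right)
  by_cases h2 : l ≤ M
  · have : 2 ≤ nu l := by unfold nu; omega
    exact (sm_pow_le c this (hV _ _ h2)).trans (le_sup_of_le_left le_sup_right)
  · have : S ≤ nu l := by unfold nu at hS ⊢; omega
    exact ((sm_pow_le c this le_rfl).trans (hN l)).trans le_sup_right

end Gen

theorem proj_of_fg {p : ℕ} [Fact p.Prime] {E : Type} [AddCommGroup E] [Module ℤ_[p] E]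
    (tf : ∀ b : E, (p : ℤ_[p]) • b = 0 → b = 0) (M : Submodule ℤ_[p] E) (hM : M.FG) :
    Module.Projective ℤ_[p] M := by
  have tfn : ∀ (n : ℕ) (b : E), (p : ℤ_[p]) ^ n • b = 0 → b = 0 := by
    intro n
    induction n with
    | zero => intro b hb; simpa using hb
    | succ n ih =>
      intro b hb
      rw [pow_succ, mul_smul] at hb
      exact tf b (ih _ hb)
  have key : ∀ (a : ℤ_[p]), a ≠ 0 → ∀ b : E, a • b = 0 → b = 0 := by
    intro a ha b hb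
    rw [PadicInt.unitCoeff_spec ha, mul_smul] at hb
    exact tfn _ b ((PadicInt.unitCoeff ha).isUnit.smul_eq_zero.1 hb)
  haveI : Module.Finite ℤ_[p] M := Module.Finite.iff_fg.2 hM
  haveI : Module.IsTorsionFree ℤ_[p] M := by
    refine Module.IsTorsionFree.of_smul_eq_zero fun a b hb => ?_
    by_cases ha : a = 0
    · exact Or.inl ha
    · exact Or.inr (Subtype.ext (key a ha b.1 (congrArg Subtype.val hb)))
  haveI : Module.Free ℤ_[p] M := Module.free_of_finite_type_torsion_free'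
  infer_instance

section Frame
variable {p : ℕ} [Fact p.Prime] {A B Γ I ι : Type} {σ : I → Type}
  [CommRing A] [Algebra ℤ_[p] A] [AddCommGroup B] [Module A B] [Module ℤ_[p] B]
  [IsScalarTower ℤ_[p] A B] [AddCommGroup Γ] [LinearOrder I] [Fintype I] [Fintype ι]
  [DecidableEq ι] [∀ j, Fintype (σ j)] [∀ j, DecidableEq (σ j)]
  (F : FrameData p A B Γ I ι σ)

theorem psi_mem (hL : F.AxL) (hC : F.AxC) (J : Finset I) (j : I) (hj : j ∈ J) (w : Γ)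
    (M S : ℕ) (hS : S ≤ nu (M + 1)) (b : B) (hb : b ∈ F.Bh J (p • w)) :
    F.Ψ j b ∈ (F.Bl J w 0 ⊔ sm (p : ℤ_[p]) (F.Bl J w 1) ⊔ sm ((p : ℤ_[p]) ^ 2) (F.Bl J w M)) ⊔
      sm ((p : ℤ_[p]) ^ S) (F.Bh J w) := by
  obtain ⟨b', hb', he⟩ := hC.Ψapp J j w b S hj hb
  have h1 := level (p : ℤ_[p]) (fun l => F.Bl J w l) (fun l l' h => hL.lev J w l l' h)
    (sm ((p : ℤ_[p]) ^ S) (F.Bh J w)) S M (fun l => sm_pow_le _ le_rfl (hL.le J w l)) hS hb'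
  have e : F.Ψ j b = b' + (F.Ψ j b - b') := by abel
  rw [e]
  exact Submodule.add_mem _ h1 (Submodule.mem_sup_right he)

theorem locB (hL : F.AxL) (hC : F.AxC) (J : Finset I) (j : I) (hj : j ∈ J) (w : Γ)
    (M S : ℕ) (hM : 1 ≤ M) (hS : S ≤ nu (M + 1)) (a : A)
    (ha : ∀ b ∈ F.Bh J w, a • b ∈ F.Bh J (p • w)) :
    ∃ Φ, F.Approx J j w M S a Φ ∧ ∀ b, (Φ b).1 ∈ F.Bl J w 0 ⊔
      sm (p : ℤ_[p]) (F.Bl J w 1) ⊔ sm ((p : ℤ_[p]) ^ 2) (F.Bl J w M) := by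
  haveI := proj_of_fg hL.tf (F.Bl J w M) (hL.fg J w M ⟨j, hj⟩)
  obtain ⟨g, hg1, hg2⟩ := lift_sup (F.Ψ j ∘ₗ mulL ℤ_[p] B a ∘ₗ (F.Bl J w M).subtype) _ _
    fun b => psi_mem F hL hC J j hj w M S hS (a • (b : B)) (ha _ (hL.le J w M b.2))
  have hle : F.Bl J w 0 ⊔ sm (p : ℤ_[p]) (F.Bl J w 1) ⊔ sm ((p : ℤ_[p]) ^ 2) (F.Bl J w M) ≤
      F.Bl J w M :=
    sup_le (sup_le (hL.lev J w _ _ (Nat.zero_le _)) ((sm_le _ _).trans (hL.lev J w _ _ hM)))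
      (sm_le _ _)
  exact ⟨g.codRestrict _ fun b => hle (hg1 b), fun b => hg2 b, fun b => hg1 b⟩

theorem xpow_mem (hL : F.AxL) (hC : F.AxC) (J : Finset I) (j : I) (hj : j ∈ J) (i : σ j)
    (k : ℕ) : F.x j i ^ k ∈ F.Ar J (k • F.wt j i) := by
  induction k with
  | zero => simpa using hL.one J
  | succ k ih =>
    rw [pow_succ, succ_nsmul]
    exact hL.mul J _ _ _ _ ih (hC.xmem J j i hj)

theorem lt_succ (J : Finset I) (m : ℕ) (z : (A →ₗ[ℤ_[p]] B) × (ι → B)) :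
    z ∈ F.Lt J (m + 1) ↔ z.1 ∈ F.L J 0 (m + 1) ∧ ∀ i, z.2 i ∈ F.Bl J 0 m := by
  simp [FrameData.Lt, Submodule.mem_prod, Submodule.mem_pi]

theorem locL (hL : F.AxL) (hC : F.AxC) (f1 : F.F1) (f2 : F.F2) (f3 : F.F3a)
    (J : Finset I) (j : I) (hj : j ∈ J) (m S : ℕ) (hm : 1 ≤ m) (hS : S ≤ nu (m + 1)) :
    ∃ Φ, ApproxL F J j (m + 1) S Φ := by
  have hfg : (F.Lt J (m + 1)).FG := by
    unfold FrameData.Lt
    refine Submodule.FG.prod (f2.2.2.2.2 J 0 (m + 1) ⟨j, hj⟩) (Submodule.fg_pi fun _ => ?_)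
    rw [if_neg (Nat.succ_ne_zero m)]
    exact hL.fg J 0 _ ⟨j, hj⟩
  have tf : ∀ z : (A →ₗ[ℤ_[p]] B) × (ι → B), (p : ℤ_[p]) • z = 0 → z = 0 := by
    intro z hz
    refine Prod.ext (LinearMap.ext fun r => hL.tf _ ?_) (funext fun i => hL.tf _ ?_)
    · exact LinearMap.congr_fun (congrArg Prod.fst hz) r
    · exact congrFun (congrArg Prod.snd hz) i
  haveI := proj_of_fg tf _ hfg
  have hWC : ∀ l, sm ((p : ℤ_[p]) ^ S) (F.L J 0 l) ≤ F.WC J 0 S := by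
    intro l P hP
    obtain ⟨Q, hQ, rfl⟩ := (sm_iff _ _ _).1 hP
    intro J' hJ' w' r hr
    exact (sm_iff _ _ _).2 ⟨Q r, hL.le _ _ _ (f1.2.2.1 J J' 0 w' l Q r hJ' hQ hr), rfl⟩
  have hS' : S ≤ nu (m + 1 + 1) := by unfold nu at hS ⊢; omega
  have hmem : ∀ z : F.Lt J (m + 1), (F.ΨLt j ∘ₗ (F.Lt J (m + 1)).subtype) z ∈
      (sm (p : ℤ_[p]) (F.Lt J 1) ⊔ sm ((p : ℤ_[p]) ^ 2) (F.Lt J (m + 1))) ⊔ F.WCt J S := by
    rintro ⟨z, hz⟩
    obtain ⟨hz1, hz2⟩ := (lt_succ F J m z).1 hz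
    have h1 : F.ΨL j z.1 ∈ (F.L J 0 0 ⊔ sm (p : ℤ_[p]) (F.L J 0 1) ⊔
        sm ((p : ℤ_[p]) ^ 2) (F.L J 0 (m + 1))) ⊔ F.WC J 0 S := by
      have h := f3.1 J j 0 (m + 1) z.1 hj (by rw [smul_zero]; exact hz1) S
      exact sup_le (level (p : ℤ_[p]) (fun l => F.L J 0 l)
        (fun l l' h => f1.1 J J 0 l l' (Finset.Subset.refl J) h) _ S (m + 1) hWC hS')
        le_sup_right h
    rw [f1.2.1 J 0, bot_sup_eq] at h1
    obtain ⟨P, hP, E, hE, e1⟩ := Submodule.mem_sup.1 h1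
    obtain ⟨P1', hP1', P2', hP2', rfl⟩ := Submodule.mem_sup.1 hP
    obtain ⟨P1, hP1, rfl⟩ := (sm_iff _ _ _).1 hP1'
    obtain ⟨P2, hP2, rfl⟩ := (sm_iff _ _ _).1 hP2'
    have h2 : ∀ i, ∃ b0 ∈ F.Bl J 0 0, ∃ b1 ∈ F.Bl J 0 m,
        ∃ e ∈ sm ((p : ℤ_[p]) ^ S) (F.Bh J 0),
          (p : ℤ_[p]) • F.Ψ j (z.2 i) = (p : ℤ_[p]) • b0 + (p : ℤ_[p]) ^ 2 • b1 + e := by
      intro i
      have h := psi_mem F hL hC J j hj 0 m S hS (z.2 i)
        (by rw [smul_zero]; exact hL.le _ _ _ (hz2 i))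
      obtain ⟨u, hu, e, he, e2⟩ := Submodule.mem_sup.1 h
      obtain ⟨u', hu', c2', hc2', rfl⟩ := Submodule.mem_sup.1 hu
      obtain ⟨b0, hb0, c1', hc1', rfl⟩ := Submodule.mem_sup.1 hu'
      obtain ⟨c1, hc1, rfl⟩ := (sm_iff _ _ _).1 hc1'
      refine ⟨b0, hb0, c1 + (p : ℤ_[p]) • ((sm_iff _ _ _).1 hc2').choose,
        Submodule.add_mem _ (hL.lev J 0 _ _ hm hc1)
          (Submodule.smul_mem _ _ ((sm_iff _ _ _).1 hc2').choose_spec.1),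
        (p : ℤ_[p]) • e, Submodule.smul_mem _ _ he, ?_⟩
      have e3 := ((sm_iff _ _ _).1 hc2').choose_spec.2
      generalize ((sm_iff _ _ _).1 hc2').choose = c2 at e3 ⊢
      rw [← e2, ← e3]
      module
    choose b0 hb0 b1 hb1 e he e2 using h2
    have e4 : (F.ΨLt j ∘ₗ (F.Lt J (m + 1)).subtype) ⟨z, hz⟩ =
        ((p : ℤ_[p]) • (P1, b0) + (p : ℤ_[p]) ^ 2 • (P2, b1)) + (E, e) := by
      refine Prod.ext ?_ (funext fun i => ?_)
      · exact e1.symm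
      · exact e2 i
    rw [e4]
    refine Submodule.add_mem_sup (Submodule.add_mem_sup ((sm_iff _ _ _).2 ⟨_, ?_, rfl⟩)
      ((sm_iff _ _ _).2 ⟨_, ?_, rfl⟩)) ?_
    · exact (lt_succ F J 0 _).2 ⟨hP1, hb0⟩
    · exact (lt_succ F J m _).2 ⟨hP2, hb1⟩
    · exact ⟨hE, fun i _ => he i⟩
  obtain ⟨g, hg1, hg2⟩ := lift_sup _ _ _ hmem
  have hle1 : F.Lt J 1 ≤ F.Lt J (m + 1) := by
    intro z hz
    obtain ⟨h1, h2⟩ := (lt_succ F J 0 z).1 hz
    exact (lt_succ F J m z).2 ⟨f1.1 J J 0 _ _ (Finset.Subset.refl J) (by omega) h1,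
      fun i => hL.lev J 0 _ _ (Nat.zero_le _) (h2 i)⟩
  have hle : sm (p : ℤ_[p]) (F.Lt J 1) ⊔ sm ((p : ℤ_[p]) ^ 2) (F.Lt J (m + 1)) ≤
      F.Lt J (m + 1) := sup_le ((sm_le _ _).trans hle1) (sm_le _ _)
  exact ⟨g.codRestrict _ fun b => hle (hg1 b), fun b => hg2 b, fun b => hg1 b⟩

end Frame

theorem loc1 : Loc1 := by
  intro p _ A B Γ I ι σ _ _ _ _ _ _ _ _ _ _ _ _ _ _ F hp hL hC f1 f2 f3 _ J j m S hj hm hS
  have hS' : S ≤ nu (m + 1 + 1) := by unfold nu at hS ⊢; omega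
  have h1 : ∀ b ∈ F.Bh J 0, (1 : A) • b ∈ F.Bh J (p • (0 : Γ)) := by
    intro b hb
    rw [one_smul, smul_zero]; exact hb
  refine ⟨locB F hL hC J j hj 0 (m + 1) S (by omega) hS' 1 h1, ?_, fun i => ?_,
    locL F hL hC f1 f2 f3 J j hj m S hm hS⟩
  · obtain ⟨Φ, h, -⟩ := locB F hL hC J j hj 0 m S hm hS 1 h1
    exact ⟨Φ, h⟩
  · obtain ⟨Φ, h, -⟩ := locB F hL hC J j hj (F.wt j i) m S hm hS (F.x j i ^ (p - 1)) (by
      intro b hb
      have h := hL.smulH J _ _ _ _ (xpow_mem F hL hC J j hj i (p - 1)) hb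
      rw [← succ_nsmul, Nat.sub_add_cancel (by omega)] at h
      exact h)
    exact ⟨Φ, h⟩

end

end Pool.Agent.MP_ea150c_mp.H78
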